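import Pool.Agent.Helper18.CPC.St

/-! CPC, module IN. -/

set_option autoImplicit false

open TopologicalSpace Topology Filter Set

namespace Pool.Agent.Helper47.CPC

open Pool.Agent.Helper18.CPC

universe u

theorem m_IN : hIN.{u} := by
  intro R _ _ l w x hD hG
  classical
  have hev : ∀ N : ℕ, ∀ᶠ q in l, ∀ i < N, q.τ i = some (w i) := by
    intro N
    filter_upwards [hD N] with q hq using mem_D_pre.1 hq
  have hmem : ∀ t : List (R × ℕ), (∀ i < t.length, t[i]? = some (w i)) → ∀ q : Pt R,
      (∀ i < t.length, q.τ i = some (w i)) → q ∈ D t := by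
    intro t ht q hq i hi
    rw [hq i hi, ht i hi]
  have hnot : ∀ t : List (R × ℕ), ∀ m < t.length, t[m]? ≠ some (w m) → ∀ q : Pt R,
      (∀ i < m + 1, q.τ i = some (w i)) → q ∉ D t := by
    intro t m hm htm q hq hqt
    apply htm
    rw [← hqt m hm, hq m (Nat.lt_succ_self m)]
  rw [Pool.Agent.Helper18.CPC.le_nhds_iff]
  refine ⟨fun t => ?_, fun t => ?_, fun v => ?_⟩
  · by_cases ht : ∀ i < t.length, t[i]? = some (w i)
    · filter_upwards [hev t.length] with q hq
      exact ⟨fun _ => hmem t ht _ (fun _ _ => rfl), fun _ => hmem t ht q hq⟩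
    · push Not at ht
      obtain ⟨m, hm, htm⟩ := ht
      filter_upwards [hev (m + 1)] with q hq
      exact ⟨fun h => (hnot t m hm htm q hq h).elim,
        fun h => (hnot t m hm htm _ (fun _ _ => rfl) h).elim⟩
  · by_cases ht : ∀ i < t.length, t[i]? = some (w i)
    · have h0 : F t (inf w x) = (w t.length).1 := by
        rw [F_mem (hmem t ht _ (fun _ _ => rfl)), val_some (inf_τ w x t.length)]
      rw [h0]
      refine tendsto_const_nhds.congr' ?_
      filter_upwards [hev (t.length + 1)] with q hq
      rw [F_mem (hmem t ht q fun i hi => hq i (Nat.lt_succ_of_lt hi)),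
        val_some (hq t.length (Nat.lt_succ_self _))]
    · push Not at ht
      obtain ⟨m, hm, htm⟩ := ht
      rw [F_not_mem (hnot t m hm htm _ (fun _ _ => rfl))]
      refine tendsto_const_nhds.congr' ?_
      filter_upwards [hev (m + 1)] with q hq
      rw [F_not_mem (hnot t m hm htm q hq)]
  · by_cases hvw : v = w
    · subst hvw
      rw [G_inf]
      exact hG
    · have hex : ∃ m, v m ≠ w m := by
        by_contra h
        push Not at h
        exact hvw (funext h)
      set m := Nat.find hex with hmdef
      have hm : v m ≠ w m := Nat.find_spec hex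
      have hlt : ∀ i < m, v i = w i := fun i hi => not_not.1 (Nat.find_min hex hi)
      have key : ∀ q : Pt R, (∀ i < m + 2, q.τ i = some (w i)) →
          G v q = if w m = Data.j v then (w (m + 1)).1 else Data.z := by
        intro q hq
        have h1 : ∀ i < m, q.τ i = some (v i) := fun i hi => by
          rw [hq i (by omega), hlt i hi]
        have h2 : q.τ m ≠ some (v m) := by
          rw [hq m (by omega)]
          intro h
          exact hm (Option.some_injective _ h).symm
        by_cases h3 : w m = Data.j v
        · rw [if_pos h3, G_at_pos h1 h2 (by rw [hq m (by omega), h3]),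
            val_some (hq (m + 1) (by omega))]
        · rw [if_neg h3, G_at_neg h1 h2]
          rw [hq m (by omega)]
          intro h
          exact h3 (Option.some_injective _ h)
      rw [key (inf w x) (fun _ _ => rfl)]
      refine tendsto_const_nhds.congr' ?_
      filter_upwards [hev (m + 2)] with q hq
      rw [key q hq]

end Pool.Agent.Helper47.CPC
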